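import Pool.Agent.W761.CB.Stm0

/-!
# Part CB-MS: measurability of the operations on configurations
-/

set_option autoImplicit false

open MeasureTheory Set
open scoped ENNReal

namespace Pool.Agent.W975.CB

open Pool.Agent.W761.CB

variable {X : Type} [MeasurableSpace X]

/-- the sector -/
def sk (N : ℕ) (x : Fin N → X) : Cf X := ⟨N, x⟩

omit [MeasurableSpace X] in
theorem sk_inj (N : ℕ) : Function.Injective (sk N : (Fin N → X) → Cf X) := by
  intro x y h
  exact eq_of_heq (Sigma.mk.inj h).2

theorem mk_meas (N : ℕ) : Measurable (sk N : (Fin N → X) → Cf X) := by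
  intro s hs
  exact MeasurableSpace.measurableSet_iInf.1 hs N

theorem mk_emb (N : ℕ) : MeasurableEmbedding (sk N : (Fin N → X) → Cf X) where
  injective := sk_inj N
  measurable := mk_meas N
  measurableSet_image' := by
    intro s hs
    refine MeasurableSpace.measurableSet_iInf.2 fun M => ?_
    change MeasurableSet (sk M ⁻¹' (sk N '' s))
    by_cases h : M = N
    · subst h
      rw [preimage_image_eq _ (sk_inj M)]
      exact hs
    · have : (sk M ⁻¹' (sk N '' s) : Set (Fin M → X)) = ∅ := by
        ext x
        simp only [mem_preimage, mem_image, mem_empty_iff_false, iff_false]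
        rintro ⟨y, _, hy⟩
        exact h (congrArg Sigma.fst hy).symm
      rw [this]
      exact MeasurableSet.empty

/-- a function of a parameter and a configuration is measurable if it is measurable in each sector -/
theorem sect {P Z : Type} [MeasurableSpace P] [MeasurableSpace Z] (f : P × Cf X → Z)
    (h : ∀ N : ℕ, Measurable fun q : P × (Fin N → X) => f (q.1, ⟨N, q.2⟩)) : Measurable f := by
  intro B hB
  have he : f ⁻¹' B = ⋃ N : ℕ, (Prod.map id (sk N) : P × (Fin N → X) → P × Cf X) ''
      ((fun q : P × (Fin N → X) => f (q.1, ⟨N, q.2⟩)) ⁻¹' B) := by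
    ext ⟨p, N, x⟩
    simp only [mem_preimage, mem_iUnion, mem_image]
    constructor
    · intro hf
      exact ⟨N, (p, x), hf, rfl⟩
    · rintro ⟨M, ⟨p', y⟩, hy, he⟩
      have : (p, (⟨N, x⟩ : Cf X)) = (p', ⟨M, y⟩) := he.symm
      rw [this]
      exact hy
  rw [he]
  refine MeasurableSet.iUnion fun N => ?_
  exact ((MeasurableEmbedding.id.prodMap (mk_emb N)).measurableSet_image).2 (h N hB)

theorem cs_meas : Measurable (fun p : X × Cf X => cs p.1 p.2) := by
  refine sect _ fun N => ?_
  have h : Measurable fun q : X × (Fin N → X) => (Fin.cons q.1 q.2 : Fin (N + 1) → X) := by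
    refine measurable_pi_lambda _ fun i => ?_
    refine Fin.cases ?_ (fun j => ?_) i
    · simpa using measurable_fst
    · simp only [Fin.cons_succ]
      exact (measurable_pi_apply j).comp measurable_snd
  exact (mk_meas (N + 1)).comp h

theorem ap_meas : Measurable (fun p : Cf X × Cf X => ap p.1 p.2) := by
  refine sect _ fun N => ?_
  have h : Measurable fun q : (Fin N → X) × Cf X => ap q.2 (⟨N, q.1⟩ : Cf X) := by
    refine sect _ fun M => ?_
    have h2 : Measurable fun q : (Fin N → X) × (Fin M → X) =>
        (Fin.append q.2 q.1 : Fin (M + N) → X) := by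
      refine measurable_pi_lambda _ fun i => ?_
      refine Fin.addCases (fun j => ?_) (fun j => ?_) i
      · simp only [Fin.append_left]
        exact (measurable_pi_apply j).comp measurable_snd
      · simp only [Fin.append_right]
        exact (measurable_pi_apply j).comp measurable_fst
    exact (mk_meas (M + N)).comp h2
  exact h.comp measurable_swap

theorem ms_succ {N : ℕ} (x : Fin (N + 1) → X) :
    ms (⟨N + 1, x⟩ : Cf X) = x 0 ::ₘ ms (⟨N, Fin.tail x⟩ : Cf X) := by
  unfold ms
  simp only [List.ofFn_succ, ← Multiset.cons_coe]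
  rfl

theorem ms_zero (x : Fin 0 → X) : ms (⟨0, x⟩ : Cf X) = 0 := by
  unfold ms
  simp

theorem ms_cs (x : X) (γ : Cf X) : ms (cs x γ) = x ::ₘ ms γ := by
  obtain ⟨N, y⟩ := γ
  unfold cs
  rw [ms_succ]
  simp

theorem prod_meas {Z : Type} [MeasurableSpace Z] [CommMonoid Z] [MeasurableMul₂ Z] (P : Type)
    [MeasurableSpace P] (w : P → X → Z) (hw : Measurable (fun q : P × X => w q.1 q.2)) :
    Measurable fun q : P × Cf X => ((ms q.2).map (w q.1)).prod := by
  refine sect _ fun N => ?_
  have e : (fun q : P × (Fin N → X) => ((ms (⟨N, q.2⟩ : Cf X)).map (w q.1)).prod) =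
      fun q => ∏ i, w q.1 (q.2 i) := by
    funext q
    unfold ms
    rw [Multiset.map_coe, Multiset.prod_coe, List.map_ofFn, List.prod_ofFn]
    rfl
  rw [e]
  exact Finset.measurable_prod _ fun i _ => hw.comp
    (measurable_fst.prodMk ((measurable_pi_apply i).comp measurable_snd))

theorem sum_meas {Z : Type} [MeasurableSpace Z] [AddCommMonoid Z] [MeasurableAdd₂ Z] (P : Type)
    [MeasurableSpace P] (w : P → X → Z) (hw : Measurable (fun q : P × X => w q.1 q.2)) :
    Measurable fun q : P × Cf X => ((ms q.2).map (w q.1)).sum := by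
  refine sect _ fun N => ?_
  have e : (fun q : P × (Fin N → X) => ((ms (⟨N, q.2⟩ : Cf X)).map (w q.1)).sum) =
      fun q => ∑ i, w q.1 (q.2 i) := by
    funext q
    unfold ms
    rw [Multiset.map_coe, Multiset.sum_coe, List.map_ofFn, List.sum_ofFn]
    rfl
  rw [e]
  exact Finset.measurable_sum _ fun i _ => hw.comp
    (measurable_fst.prodMk ((measurable_pi_apply i).comp measurable_snd))

theorem anti_aux {Z : Type} [MeasurableSpace Z] [AddCommMonoid Z] [MeasurableAdd₂ Z] :
    ∀ (N : ℕ) (P : Type) [MeasurableSpace P] (h : P → Multiset X → Multiset X → Z),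
    Measurable (fun q : P × Cf X × Cf X => h q.1 (ms q.2.1) (ms q.2.2)) →
    Measurable fun q : P × (Fin N → X) =>
      ((ms (⟨N, q.2⟩ : Cf X)).antidiagonal.map fun s => h q.1 s.1 s.2).sum := by
  intro N
  induction N with
  | zero =>
    intro P _ h hm
    have e : (fun q : P × (Fin 0 → X) =>
        ((ms (⟨0, q.2⟩ : Cf X)).antidiagonal.map fun s => h q.1 s.1 s.2).sum) =
        fun q => (fun q : P × Cf X × Cf X => h q.1 (ms q.2.1) (ms q.2.2))
          (q.1, ⟨0, Fin.elim0⟩, ⟨0, Fin.elim0⟩) := by
      funext q
      simp [ms_zero]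
    rw [e]
    exact hm.comp (measurable_fst.prodMk measurable_const)
  | succ N ih =>
    intro P _ h hm
    set h' : P × X → Multiset X → Multiset X → Z := fun q A B =>
      h q.1 A (q.2 ::ₘ B) + h q.1 (q.2 ::ₘ A) B with hh'
    have hm' : Measurable (fun q : (P × X) × Cf X × Cf X => h' q.1 (ms q.2.1) (ms q.2.2)) := by
      have e1 : (fun q : (P × X) × Cf X × Cf X => h' q.1 (ms q.2.1) (ms q.2.2)) = fun q =>
          (fun q : P × Cf X × Cf X => h q.1 (ms q.2.1) (ms q.2.2)) (q.1.1, q.2.1, cs q.1.2 q.2.2) +
          (fun q : P × Cf X × Cf X => h q.1 (ms q.2.1) (ms q.2.2)) (q.1.1, cs q.1.2 q.2.1, q.2.2) := by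
        funext q
        simp only [hh', ms_cs]
      rw [e1]
      have h11 : Measurable fun q : (P × X) × Cf X × Cf X => q.1.1 :=
        measurable_fst.comp measurable_fst
      have h12 : Measurable fun q : (P × X) × Cf X × Cf X => q.1.2 :=
        measurable_snd.comp measurable_fst
      have h21 : Measurable fun q : (P × X) × Cf X × Cf X => q.2.1 :=
        measurable_fst.comp measurable_snd
      have h22 : Measurable fun q : (P × X) × Cf X × Cf X => q.2.2 :=
        measurable_snd.comp measurable_snd
      exact (hm.comp (h11.prodMk (h21.prodMk (cs_meas.comp (h12.prodMk h22))))).add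
        (hm.comp (h11.prodMk ((cs_meas.comp (h12.prodMk h21)).prodMk h22)))
    have h3 := ih (P × X) h' hm'
    have e : (fun q : P × (Fin (N + 1) → X) =>
        ((ms (⟨N + 1, q.2⟩ : Cf X)).antidiagonal.map fun s => h q.1 s.1 s.2).sum) =
        fun q => (fun q : (P × X) × (Fin N → X) =>
          ((ms (⟨N, q.2⟩ : Cf X)).antidiagonal.map fun s => h' q.1 s.1 s.2).sum)
          ((q.1, q.2 0), Fin.tail q.2) := by
      funext q
      simp only
      rw [ms_succ, Multiset.antidiagonal_cons, Multiset.map_add, Multiset.sum_add,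
        Multiset.map_map, Multiset.map_map, ← Multiset.sum_map_add]
      rfl
    rw [e]
    refine h3.comp ((measurable_fst.prodMk ((measurable_pi_apply 0).comp measurable_snd)).prodMk ?_)
    exact measurable_pi_lambda _ fun i => (measurable_pi_apply i.succ).comp measurable_snd

theorem anti_meas {Z : Type} [MeasurableSpace Z] [AddCommMonoid Z] [MeasurableAdd₂ Z]
    (P : Type) [MeasurableSpace P] (h : P → Multiset X → Multiset X → Z)
    (hm : Measurable (fun q : P × Cf X × Cf X => h q.1 (ms q.2.1) (ms q.2.2))) :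
    Measurable fun q : P × Cf X => ((ms q.2).antidiagonal.map fun s => h q.1 s.1 s.2).sum :=
  sect _ fun N => anti_aux N P h hm

theorem proof_ms : Pool.Agent.W761.CB.S_MS := by
  intro X _
  exact ⟨cs_meas, ap_meas, fun P _ w hw => prod_meas P w hw, fun P _ w hw => sum_meas P w hw,
    fun P _ w hw => sum_meas P w hw, fun P _ h hm => anti_meas P h hm,
    fun P _ h hm => anti_meas P h hm⟩

end Pool.Agent.W975.CB
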