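import Pool.Agent.W525.CB.Stm

/-!
# The charts cover
-/

set_option autoImplicit false
set_option maxHeartbeats 1000000

open AlgebraicGeometry CategoryTheory Order

namespace Pool.Agent.W975.CB.COV

open Pool.Agent.H187R3 Pool.Agent.W525.CB

theorem locIn_local {X : Scheme.{0}} [IsIntegral X] {E : Type} [Field E]
    (κ : X.functionField →+* E) (x : X) : IsLocalRing (locIn κ x) :=
  IsLocalRing.of_surjective' _
    (RingHom.rangeRestrict_surjective (κ.comp (algebraMap (X.presheaf.stalk x) X.functionField)))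

section

variable {E : Type} [Field E] (O : Subring E)

theorem unit_val {a : O} (h : IsUnit a) : (a : E) ≠ 0 ∧ (a : E)⁻¹ ∈ O := by
  obtain ⟨u, rfl⟩ := h
  have h1 : ((u : O) : E) * (((u⁻¹ : Oˣ) : O) : E) = 1 := by
    have h := u.mul_inv
    exact congrArg Subtype.val h
  refine ⟨left_ne_zero_of_mul_eq_one h1, ?_⟩
  rw [← eq_inv_of_mul_eq_one_right h1]
  exact ((u⁻¹ : Oˣ) : O).2

theorem sum_unit [IsLocalRing O] {ι : Type} [Fintype ι] (f : ι → E) (hf : ∀ i, f i ∈ O)
    (h : ∑ i, f i = 1) : ∃ i, f i ≠ 0 ∧ (f i)⁻¹ ∈ O := by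
  by_contra hcon
  push Not at hcon
  have h1 : ∀ i, (⟨f i, hf i⟩ : O) ∈ IsLocalRing.maximalIdeal O := by
    intro i
    rw [IsLocalRing.mem_maximalIdeal, mem_nonunits_iff]
    intro hu
    have := unit_val O hu
    exact hcon i this.1 this.2
  have h2 : (∑ i, (⟨f i, hf i⟩ : O)) ∈ IsLocalRing.maximalIdeal O :=
    Ideal.sum_mem _ fun i _ => h1 i
  have h3 : (∑ i, (⟨f i, hf i⟩ : O)) = 1 := by
    apply Subtype.ext
    push_cast
    exact h
  rw [h3] at h2
  exact (Ideal.ne_top_iff_one _).1 (IsLocalRing.maximalIdeal.isMaximal O).ne_top h2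

theorem mul_unit {a b : E} (ha : a ∈ O) (h0 : a * b ≠ 0) (h : (a * b)⁻¹ ∈ O) :
    b ≠ 0 ∧ b⁻¹ ∈ O := by
  have ha0 := left_ne_zero_of_mul h0
  have hb0 := right_ne_zero_of_mul h0
  refine ⟨hb0, ?_⟩
  have e : b⁻¹ = a * (a * b)⁻¹ := by field_simp
  rw [e]
  exact O.mul_mem ha h

theorem add_unit [IsLocalRing O] {a b : E} (ha : a ∈ O) (hb : b ∈ O) (h : a + b = 1) :
    (a ≠ 0 ∧ a⁻¹ ∈ O) ∨ (b ≠ 0 ∧ b⁻¹ ∈ O) := by
  obtain ⟨i, hi⟩ := sum_unit O ![a, b] (by
    intro i
    fin_cases i
    · exact ha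
    · exact hb) (by simpa using h)
  fin_cases i
  · exact Or.inl hi
  · exact Or.inr hi

end

theorem exists_perm {n : ℕ} {j l : Fin (n + 3)} (h : j ≠ l) :
    ∃ σ : Equiv.Perm (Fin (n + 3)), σ 0 = j ∧ σ 1 = l := by
  have h01 : (0 : Fin (n + 3)) ≠ 1 := by
    intro h; exact absurd (congrArg Fin.val h) (by simp)
  refine ⟨Equiv.swap (Equiv.swap 0 j 1) l * Equiv.swap 0 j, ?_, ?_⟩
  · rw [Equiv.Perm.mul_apply, Equiv.swap_apply_left]
    apply Equiv.swap_apply_of_ne_of_ne _ h
    intro h2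
    have h3 : Equiv.swap 0 j j = 1 := by
      have h4 := congrArg (Equiv.swap 0 j) h2
      rw [Equiv.swap_apply_self] at h4
      exact h4
    rw [Equiv.swap_apply_right] at h3
    exact h01 h3
  · rw [Equiv.Perm.mul_apply, Equiv.swap_apply_left]

theorem uu_anti {n : ℕ} {L : Type} [Field L] (x y : Fin (n + 3) → L) (i j : Fin (n + 3)) :
    uu x y i j = - uu x y j i := by unfold uu; ring

theorem uu_self {n : ℕ} {L : Type} [Field L] (x y : Fin (n + 3) → L) (i : Fin (n + 3)) :
    uu x y i i = 0 := by unfold uu; ring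

theorem pluecker {n : ℕ} {L : Type} [Field L] (x y : Fin (n + 3) → L) (i c d : Fin (n + 3)) :
    x i ^ 2 * uu x y c d + x c ^ 2 * uu x y d i + x d ^ 2 * uu x y i c = 0 := by
  unfold uu; ring

theorem zero_ne_two (n : ℕ) : (0 : Fin (n + 3)) ≠ 2 := by
  intro h
  have h2 := congrArg Fin.val h
  rw [Fin.val_zero, Fin.val_two] at h2
  omega

theorem zero_ne_one' (n : ℕ) : (0 : Fin (n + 3)) ≠ 1 := by
  intro h
  have h2 := congrArg Fin.val h
  rw [Fin.val_zero, Fin.val_one] at h2
  omega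

theorem one_ne_two (n : ℕ) : (1 : Fin (n + 3)) ≠ 2 := by
  intro h
  have h2 := congrArg Fin.val h
  rw [Fin.val_one, Fin.val_two] at h2
  omega

theorem zero_ne_ss {n : ℕ} (i : Fin (n + 1)) : (0 : Fin (n + 3)) ≠ i.succ.succ := by
  intro h
  exact absurd (congrArg Fin.val h) (by simp)

theorem one_ne_ss {n : ℕ} (i : Fin (n + 1)) : (1 : Fin (n + 3)) ≠ i.succ.succ := by
  intro h
  exact absurd (congrArg Fin.val h) (by simp)

theorem main : S_REL → S_CH → S_LOC → S_COV := by
  intro hREL hCH hLOC n k E _ _ _ _ _ _ x y hn hE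
  have : CharP E (n + 2) := charP_of_injective_algebraMap (algebraMap k E).injective (n + 2)
  have hD := hE.dat
  constructor
  · intro M P
    have := M.integral
    set O : Subring E := @locIn M.X M.integral E _ M.κ P with hO
    have : IsLocalRing O := locIn_local M.κ P
    have hratio : ∀ b : IX n, P ∈ M.U b → ∀ b' : IX n, xiX x y b' / xiX x y b ∈ O := by
      intro b hb b'
      have h1 := (hLOC M.X E M.κ (M.U b) (M.affine b) P hb).1
      apply h1
      rw [M.sec b]
      exact Algebra.subset_adjoin ⟨b', rfl⟩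
    have hx := hD.nx
    have hu := hD.nu
    -- step 1
    have step1 : ∃ (j l : Fin (n + 3)) (hjl : j ≠ l), P ∈ M.U ⟨(j, j, l), hjl⟩ := by
      obtain ⟨⟨⟨i, c, d⟩, hcd⟩, hb⟩ := M.cover P
      have hcd' : c ≠ d := hcd
      set b : IX n := ⟨(i, c, d), hcd⟩ with hbdef
      have hr := hratio b hb
      have hucd : uu x y c d ≠ 0 := hu c d hcd'
      have e1 : x c / x i ∈ O := by
        have h := hr ⟨(c, c, d), hcd⟩
        have e : xiX x y (⟨(c, c, d), hcd⟩ : IX n) / xiX x y b = x c / x i := by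
          show (x c * uu x y c d) / (x i * uu x y c d) = _
          exact mul_div_mul_right _ _ hucd
        rwa [e] at h
      have e2 : x d / x i ∈ O := by
        have h := hr ⟨(d, c, d), hcd⟩
        have e : xiX x y (⟨(d, c, d), hcd⟩ : IX n) / xiX x y b = x d / x i := by
          show (x d * uu x y c d) / (x i * uu x y c d) = _
          exact mul_div_mul_right _ _ hucd
        rwa [e] at h
      have e3 : ∀ s t : Fin (n + 3), uu x y s t / uu x y c d ∈ O := by
        intro s t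
        by_cases hst : s = t
        · rw [hst, uu_self, zero_div]
          exact O.zero_mem
        · have h := hr ⟨(i, s, t), hst⟩
          have e : xiX x y (⟨(i, s, t), hst⟩ : IX n) / xiX x y b = uu x y s t / uu x y c d := by
            show (x i * uu x y s t) / (x i * uu x y c d) = _
            exact mul_div_mul_left _ _ (hx i)
          rwa [e] at h
      have hsum : (-(x c / x i) ^ 2) * (uu x y d i / uu x y c d) +
          (-(x d / x i) ^ 2) * (uu x y i c / uu x y c d) = 1 := by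
        have hp := pluecker x y i c d
        have hxi := hx i
        field_simp
        linear_combination -hp
      have m1 : (-(x c / x i) ^ 2) ∈ O := O.neg_mem (O.pow_mem e1 2)
      have m2 : (-(x d / x i) ^ 2) ∈ O := O.neg_mem (O.pow_mem e2 2)
      rcases add_unit O (O.mul_mem m1 (e3 d i)) (O.mul_mem m2 (e3 i c)) hsum with h | h
      · obtain ⟨h1, h2⟩ := mul_unit O m1 h.1 h.2
        have hid : i ≠ d := by
          rintro rfl
          rw [uu_self, zero_div] at h1
          exact h1 rfl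
        refine ⟨i, d, hid, ?_⟩
        rw [M.unit P b ⟨(i, i, d), hid⟩ hb]
        have e : xiX x y b / xiX x y (⟨(i, i, d), hid⟩ : IX n) =
            -(uu x y d i / uu x y c d)⁻¹ := by
          show (x i * uu x y c d) / (x i * uu x y i d) = _
          rw [mul_div_mul_left _ _ (hx i), uu_anti x y i d, inv_div, div_neg]
        rw [e]
        exact O.neg_mem h2
      · obtain ⟨h1, h2⟩ := mul_unit O m2 h.1 h.2
        have hic : i ≠ c := by
          rintro rfl
          rw [uu_self, zero_div] at h1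
          exact h1 rfl
        refine ⟨i, c, hic, ?_⟩
        rw [M.unit P b ⟨(i, i, c), hic⟩ hb]
        have e : xiX x y b / xiX x y (⟨(i, i, c), hic⟩ : IX n) =
            (uu x y i c / uu x y c d)⁻¹ := by
          show (x i * uu x y c d) / (x i * uu x y i c) = _
          rw [mul_div_mul_left _ _ (hx i), inv_div]
        rw [e]
        exact h2
    obtain ⟨j, l, hjl, hPa⟩ := step1
    obtain ⟨σ₀, hσ0, hσ1⟩ := exists_perm hjl
    set a : IX n := ⟨(j, j, l), hjl⟩ with ha
    have hAX : ∀ e ∈ AX k x y σ₀, e ∈ O := by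
      intro e he
      have h1 := (hLOC M.X E M.κ (M.U a) (M.affine a) P hPa).1
      apply h1
      rw [M.sec a, (hCH n k E x y hD).1 σ₀ a (by rw [hσ0, hσ1])]
      exact he
    have hss : ∀ i, ss x σ₀ i ∈ O := fun i =>
      hAX _ (Algebra.subset_adjoin (Or.inl ⟨i, rfl⟩))
    have htt : ∀ i, tt x y σ₀ i ∈ O := fun i =>
      hAX _ (Algebra.subset_adjoin (Or.inr ⟨i, rfl⟩))
    have hww : ∀ i, ww x y σ₀ i ∈ O := fun i =>
      O.sub_mem (O.pow_mem (hss i) 2) (O.mul_mem (O.pow_mem (hss 1) 2) (htt i))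
    have h4 := (hREL n E x y hn hD σ₀).2.2.2
    obtain ⟨i, hi0, hi1⟩ := sum_unit O (fun i : Fin (n + 1) =>
      (-(ss x σ₀ i.succ.succ * ww x y σ₀ i.succ.succ ^ (n + 1))) * ww x y σ₀ i.succ.succ) (by
        intro i
        exact O.mul_mem (O.neg_mem (O.mul_mem (hss _) (O.pow_mem (hww _) _))) (hww _)) (by
        have e : ∀ i : Fin (n + 1),
            (-(ss x σ₀ i.succ.succ * ww x y σ₀ i.succ.succ ^ (n + 1))) * ww x y σ₀ i.succ.succ =
            -(ss x σ₀ i.succ.succ * ww x y σ₀ i.succ.succ ^ (n + 2)) := by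
          intro i; ring
        rw [Finset.sum_congr rfl (fun i _ => e i), Finset.sum_neg_distrib, h4, neg_neg])
    obtain ⟨hw0, hw1⟩ := mul_unit O
      (O.neg_mem (O.mul_mem (hss _) (O.pow_mem (hww _) _))) hi0 hi1
    set σ : Equiv.Perm (Fin (n + 3)) := σ₀ * Equiv.swap 2 i.succ.succ with hσ
    have s0 : σ 0 = σ₀ 0 := by
      rw [hσ, Equiv.Perm.mul_apply, Equiv.swap_apply_of_ne_of_ne (zero_ne_two n) (zero_ne_ss i)]
    have s1 : σ 1 = σ₀ 1 := by
      rw [hσ, Equiv.Perm.mul_apply, Equiv.swap_apply_of_ne_of_ne (one_ne_two n) (one_ne_ss i)]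
    have s2 : σ 2 = σ₀ i.succ.succ := by
      rw [hσ, Equiv.Perm.mul_apply, Equiv.swap_apply_left]
    refine ⟨σ, a, ?_, hPa, ?_⟩
    · rw [s0, s1, hσ0, hσ1]
    · have e : ww x y σ 2 = ww x y σ₀ i.succ.succ := by
        unfold ww ss tt
        rw [s0, s1, s2]
      rw [e]
      exact hw1
  · intro M P
    have := M.integral
    set O : Subring E := @locIn M.X M.integral E _ M.κ P with hO
    have : IsLocalRing O := locIn_local M.κ P
    obtain ⟨j, hj⟩ := M.cover P
    set σ₀ : Equiv.Perm (Fin (n + 3)) := Equiv.swap 0 j with hσ₀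
    have hσ0 : σ₀ 0 = j := Equiv.swap_apply_left _ _
    have hAZ : ∀ e ∈ AZ k x σ₀, e ∈ O := by
      intro e he
      have h1 := (hLOC M.X E M.κ (M.U j) (M.affine j) P hj).1
      apply h1
      have h2 := (hCH n k E x y hD).2.1 σ₀
      rw [hσ0] at h2
      rw [M.sec j, h2]
      exact he
    have hss : ∀ i, ss x σ₀ i ∈ O := fun i => hAZ _ (Algebra.subset_adjoin ⟨i, rfl⟩)
    have h2 := (hREL n E x y hn hD σ₀).2.1
    rw [Fin.sum_univ_succ] at h2
    have hss0 : ss x σ₀ 0 = 1 := div_self (hD.nx _)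
    rw [hss0, one_pow] at h2
    obtain ⟨i, hi0, hi1⟩ := sum_unit O (fun i : Fin (n + 2) =>
      (-(ss x σ₀ i.succ ^ (2 * n + 4))) * ss x σ₀ i.succ) (by
        intro i
        exact O.mul_mem (O.neg_mem (O.pow_mem (hss _) _)) (hss _)) (by
        have e : ∀ i : Fin (n + 2),
            (-(ss x σ₀ i.succ ^ (2 * n + 4))) * ss x σ₀ i.succ =
            -(ss x σ₀ i.succ ^ (2 * n + 5)) := by
          intro i; ring
        rw [Finset.sum_congr rfl (fun i _ => e i), Finset.sum_neg_distrib]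
        linear_combination -h2)
    obtain ⟨hw0, hw1⟩ := mul_unit O (O.neg_mem (O.pow_mem (hss _) _)) hi0 hi1
    set σ : Equiv.Perm (Fin (n + 3)) := σ₀ * Equiv.swap 1 i.succ with hσ
    have s0 : σ 0 = σ₀ 0 := by
      rw [hσ, Equiv.Perm.mul_apply, Equiv.swap_apply_of_ne_of_ne (zero_ne_one' n)
        (Fin.succ_ne_zero i).symm]
    have s1 : σ 1 = σ₀ i.succ := by
      rw [hσ, Equiv.Perm.mul_apply, Equiv.swap_apply_left]
    refine ⟨σ, ?_, ?_⟩
    · rw [s0, hσ0]
      exact hj
    · have e : ss x σ 1 = ss x σ₀ i.succ := by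
        unfold ss
        rw [s0, s1]
      rw [e]
      exact hw1

end Pool.Agent.W975.CB.COV
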